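import Pool.Agent.H55.GW.Targets3

/-!
# BXX: few windows connect two outer vertices of `Ξ` (module for MP_97b7aa_co)
-/

set_option autoImplicit false

namespace Pool.Agent.H47.GW2

open Pool.Agent.H55.GW
open Frame

section

variable {F : Frame} {m : ℕ → Vx}

/-- a vertex of class `P` is reached from the sources avoiding any vertex other than itself and
its mate -/
theorem walk_avoid (hm : F.IsPM m) (hcf : F.CoFan m) {p : ℕ} (hp : p ∈ F.V) (hP : F.isP p)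
    {z : Vx} (h1 : z ≠ Sum.inr p) (h2 : z ≠ m p) :
    ∃ s ∈ F.src m, RIn (F.D m) {z}ᶜ s (Sum.inr p) := by
  have hD := D_mate_P hm hp hP
  have hz1 : (Sum.inr p : Vx) ∈ ({z} : Set Vx)ᶜ := fun h => h1 h.symm
  have hz2 : m p ∈ ({z} : Set Vx)ᶜ := fun h => h2 h.symm
  rcases hm.cases hp with ⟨e, he, ha⟩ | ⟨u, hu, huV, hmu, hcls, hadj⟩
  · refine ⟨m p, ?_, RIn.single hD hz2 hz1⟩
    refine ⟨e, att_E ha, ?_, he⟩
    intro hb
    exact ((mem_base_iff ha).1 hb).1 hP he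
  · have hadj' : F.adj p u := by
      rcases hadj with h | h
      · exact h
      · exact absurd hP (adj_notP h)
    have huQ : ¬ F.isP u := hcls.1 hP
    rcases hcf u huV huQ with hexc | hfan
    · exact absurd hadj' (hexc.1 p).2
    · obtain ⟨s, hs, hw⟩ := hfan z (by rw [← hu]; exact h2)
      refine ⟨s, hs, RIn.tail hw ?_ hz1⟩
      rw [← hu]; exact hD

/-- mates of distinct vertices of class `P` -/
theorem mates_ne (hm : F.IsPM m) {p p' : ℕ} (hp : p ∈ F.V) (hp' : p' ∈ F.V) (hP : F.isP p)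
    (hP' : F.isP p') (hne : p ≠ p') : m p ≠ m p' ∧ m p ≠ Sum.inr p' ∧ m p' ≠ Sum.inr p := by
  refine ⟨?_, ?_, ?_⟩
  · intro h
    rcases hm.cases hp with ⟨e, he, ha⟩ | ⟨u, hu, huV, hmu, hcls, hadj⟩
    · have := (hm p' hp').1 e (by rw [← h]; exact he)
      exact hne (F.att_uniq e p p' ha this)
    · have h3 := ((hm p' hp').2 u (by rw [← h]; exact hu)).2
      rw [hmu] at h3
      exact hne (Sum.inr.inj h3)
  · intro h
    rcases ((hm p hp).2 p' h).1 with h1 | h1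
    · exact adj_notP h1 hP'
    · exact adj_notP h1 hP
  · intro h
    rcases ((hm p' hp').2 p h).1 with h1 | h1
    · exact adj_notP h1 hP
    · exact adj_notP h1 hP'

/-- two disjoint rooted paths -/
theorem two_walks (hMEN : T_MEN) (hm : F.IsPM m) (hcf : F.CoFan m) {p p' : ℕ} (hp : p ∈ F.V)
    (hp' : p' ∈ F.V) (hP : F.isP p) (hP' : F.isP p') (hne : p ≠ p') :
    ∃ (a₁ a₂ : ℕ) (T₁ T₂ : Set Vx), a₁ ≠ a₂ ∧ a₁ ∈ F.E ∧ a₁ ∉ F.base m ∧ a₂ ∈ F.E ∧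
      a₂ ∉ F.base m ∧ Disjoint T₁ T₂ ∧ (∀ x ∈ T₁, RIn (F.D m) T₁ (Sum.inl a₁) x) ∧
      (∀ x ∈ T₂, RIn (F.D m) T₂ (Sum.inl a₂) x) ∧ Sum.inr p ∈ T₁ ∧ Sum.inr p' ∈ T₂ := by
  classical
  obtain ⟨hne1, hne2, hne3⟩ := mates_ne hm hp hp' hP hP' hne
  have hlnk : Lnk (F.D m) 2 (F.src m) ({Sum.inr p, Sum.inr p'} : Set Vx) := by
    refine hMEN Vx (F.D m) F.uni F.uni_finite (fun u v h => D_uni h) _ _ ?_ ?_ 2 ?_
    · rintro x ⟨e, he, _, rfl⟩
      exact Or.inr ⟨e, he, rfl⟩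
    · rintro x (rfl | rfl)
      · exact Or.inl ⟨p, hp, rfl⟩
      · exact Or.inl ⟨p', hp', rfl⟩
    · intro S hS
      by_contra hcard
      have hle : S.card ≤ 1 := by omega
      obtain ⟨z, hz⟩ := (Finset.card_le_one_iff_subset_singleton).1 hle
      have hsep : Sep (F.D m) ({z} : Set Vx) (F.src m) ({Sum.inr p, Sum.inr p'} : Set Vx) :=
        hS.mono (fun x hx => by
          have := hz hx
          simpa using this) subset_rfl subset_rfl
      have hA : z = Sum.inr p ∨ z = m p := by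
        by_contra hcon
        push Not at hcon
        obtain ⟨s, hs, hw⟩ := walk_avoid hm hcf hp hP hcon.1 hcon.2
        exact hsep s hs _ (Or.inl rfl) hw
      have hB : z = Sum.inr p' ∨ z = m p' := by
        by_contra hcon
        push Not at hcon
        obtain ⟨s, hs, hw⟩ := walk_avoid hm hcf hp' hP' hcon.1 hcon.2
        exact hsep s hs _ (Or.inr rfl) hw
      rcases hA with hA | hA <;> rcases hB with hB | hB
      · rw [hA] at hB
        exact hne (Sum.inr.inj hB)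
      · exact hne3 (hB.symm.trans hA)
      · exact hne2 (hA.symm.trans hB)
      · exact hne1 (hA.symm.trans hB)
  obtain ⟨x, y, S, h1, h2⟩ := hlnk
  have hyinj : Function.Injective y := (lnk_inj (fun i => (h1 i).2.2) h2).2
  have hxinj : Function.Injective x := (lnk_inj (fun i => (h1 i).2.2) h2).1
  have hi : ∃ i, y i = Sum.inr p := by
    by_contra hcon
    push Not at hcon
    have h0 : y 0 = Sum.inr p' := ((h1 0).2.1).resolve_left (hcon 0)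
    have h1' : y 1 = Sum.inr p' := ((h1 1).2.1).resolve_left (hcon 1)
    have := hyinj (h0.trans h1'.symm)
    exact absurd this (by decide)
  have hi' : ∃ i, y i = Sum.inr p' := by
    by_contra hcon
    push Not at hcon
    have h0 : y 0 = Sum.inr p := ((h1 0).2.1).resolve_right (hcon 0)
    have h1' : y 1 = Sum.inr p := ((h1 1).2.1).resolve_right (hcon 1)
    have := hyinj (h0.trans h1'.symm)
    exact absurd this (by decide)
  obtain ⟨i, hi⟩ := hi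
  obtain ⟨i', hi'⟩ := hi'
  have hii : i ≠ i' := by
    rintro rfl
    rw [hi] at hi'
    exact hne (Sum.inr.inj hi')
  obtain ⟨a₁, ha1, ha1', hxa1⟩ := (h1 i).1
  obtain ⟨a₂, ha2, ha2', hxa2⟩ := (h1 i').1
  obtain ⟨l, hl, hlS⟩ := (h1 i).2.2.exists_path
  obtain ⟨l', hl', hlS'⟩ := (h1 i').2.2.exists_path
  refine ⟨a₁, a₂, {w | w ∈ l}, {w | w ∈ l'}, ?_, ha1, ha1', ha2, ha2', ?_, ?_, ?_, ?_, ?_⟩
  · rintro rfl
    exact hii (hxinj (hxa1.trans hxa2.symm))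
  · rw [Set.disjoint_left]
    intro w hw hw'
    exact Set.disjoint_left.1 (h2 i i' hii) (hlS w hw) (hlS' w hw')
  · intro w hw
    rw [← hxa1]
    exact hl.rIn_left hw
  · intro w hw
    rw [← hxa2]
    exact hl'.rIn_left hw
  · rw [← hi]; exact hl.mem_right
  · rw [← hi']; exact hl'.mem_right

end

section

/-- an edge from an outer vertex of `Ξ` into the region -/
theorem outer_edge {c : Ctx} (hc : c.Ok) {i ξ : ℕ} (h1 : 1 ≤ i) (h2 : i + 2 ≤ c.T)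
    (hξ : ξ ∈ c.Ξ) (h0 : Sum.inr ξ ∈ c.O 0) {x : Vx} (hG : c.F.G (Sum.inr ξ) x)
    (hx : x ∈ c.Reg i) :
    c.F.D c.m (Sum.inr ξ) x ∧ (x ∈ c.F.inn ∨ x ∈ c.F.snk c.m) ∧ c.F.isP ξ := by
  have hx0 : x ∉ c.O 0 := fun h => hx.1.2 (hc.mono 0 (i - 1) (by omega) (by omega) h)
  have hD : c.F.D c.m (Sum.inr ξ) x := by
    rcases G_D hc.pm hG with h | h
    · exact h
    · exact absurd (hc.inc 0 (by omega) _ _ h h0) hx0
  refine ⟨hD, ?_, ?_⟩
  · rcases x with e | v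
    · exact Or.inr ⟨e, hD.2, rfl⟩
    · rcases (D_uni hD).2 with ⟨w, hw, hw'⟩ | ⟨e, _, he⟩
      · exact Or.inl ⟨w, hw, hw'⟩
      · exact absurd he (by simp)
  · by_contra hP
    have hmx := out_Q hc.pm hP hD
    have := (hc.hub 0 (by omega) ξ (hc.xiV ξ hξ).1).1 h0
    rw [← hmx] at this
    exact hx0 this

/-- the windows connecting two given vertices -/
def Wxx (c : Ctx) (ξ ξ' : ℕ) : Set ℕ :=
  {i | 1 ≤ i ∧ i + 2 ≤ c.T ∧ ∃ x y, c.F.G (Sum.inr ξ) x ∧ c.F.G (Sum.inr ξ') y ∧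
    RIn c.F.G (c.Reg i) x y}

theorem pair_bound (hULB : T_ULB) (hMEN : T_MEN) (hGRP : T_GRP) (q : ℕ) (hq : 1 < q) (φ : ℕ → ℕ)
    (hφ : Monotone φ) (σ : ℕ) : ∃ R : ℕ, ∀ (M : Matroid ℕ) (c : Ctx), Gam q M → c.F.Rep M →
    Good c.F φ → c.F.CoFan c.m → c.Ok → c.Ξ.card + c.k ≤ σ → ∀ ξ ∈ c.Ξ, ∀ ξ' ∈ c.Ξ, ξ ≠ ξ' →
    Sum.inr ξ ∈ c.O 0 → Sum.inr ξ' ∈ c.O 0 → (Wxx c ξ ξ').ncard ≤ R := by
  obtain ⟨R1, hR1⟩ := hULB q hq φ hφ
  obtain ⟨R2, hR2⟩ := hGRP φ hφ σ (R1 + 1)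
  refine ⟨R2, ?_⟩
  intro M c hG hRep hgood hcf hc hσ ξ hξ ξ' hξ' hne h0 h0'
  by_contra hcon
  push Not at hcon
  classical
  have hex : ∀ i, ∃ x y : Vx, i ∈ Wxx c ξ ξ' → c.F.G (Sum.inr ξ) x ∧ c.F.G (Sum.inr ξ') y ∧
      RIn c.F.G (c.Reg i) x y := by
    intro i
    by_cases hi : i ∈ Wxx c ξ ξ'
    · obtain ⟨_, _, x, y, h⟩ := hi
      exact ⟨x, y, fun _ => h⟩
    · exact ⟨Sum.inl 0, Sum.inl 0, fun h => absurd h hi⟩
  choose u u' huu using hex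
  have hu : ∀ i ∈ Wxx c ξ ξ', c.F.D c.m (Sum.inr ξ) (u i) ∧
      (u i ∈ c.F.inn ∨ u i ∈ c.F.snk c.m) ∧ c.F.isP ξ := fun i hi =>
    outer_edge hc hi.1 hi.2.1 hξ h0 (huu i hi).1 (huu i hi).2.2.left_mem
  have hu' : ∀ i ∈ Wxx c ξ ξ', c.F.D c.m (Sum.inr ξ') (u' i) ∧
      (u' i ∈ c.F.inn ∨ u' i ∈ c.F.snk c.m) ∧ c.F.isP ξ' := fun i hi =>
    outer_edge hc hi.1 hi.2.1 hξ' h0' (huu i hi).2.1 (huu i hi).2.2.right_mem
  obtain ⟨ix, Gr, E, E', t, t', hdisj, hdata⟩ := hR2 c hc (hgood c.m hc.pm).1 hσ (Wxx c ξ ξ') u u'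
    (fun i hi => ⟨hi.1, hi.2.1, (hu i hi).2.1, (hu' i hi).2.1, (huu i hi).2.2⟩) hcon
  have hix0 := (hdata 0).1
  have hP := (hu _ hix0).2.2
  have hP' := (hu' _ hix0).2.2
  obtain ⟨a₁, a₂, T₁, T₂, ha, ha1, ha1', ha2, ha2', hT, hT1, hT2, hm1, hm2⟩ :=
    two_walks hMEN hc.pm hcf (hc.xiV ξ hξ).1 (hc.xiV ξ' hξ').1 hP hP' hne
  have hfin := hR1 M c.F c.m hG hRep hgood hc.pm a₁ a₂ ha ha1 ha1' ha2 ha2' T₁ T₂ hT hT1 hT2
    (R1 + 1) Gr E E' t t' hdisj (fun j => by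
      obtain ⟨hI, hE, hE', ht, ht', hs, hs', hr, hEx, hEx'⟩ := hdata j
      refine ⟨hE, hE', ht, ht', hs, hs', hr, ?_, ?_⟩
      · intro x hx
        refine ⟨Sum.inr ξ, hm1, ?_⟩
        exact RIn.head (hu _ hI).1 (Set.mem_insert _ _)
          ((hEx x hx).mono_set (Set.subset_insert _ _))
      · intro x hx
        refine ⟨Sum.inr ξ', hm2, ?_⟩
        exact RIn.head (hu' _ hI).1 (Set.mem_insert _ _)
          ((hEx' x hx).mono_set (Set.subset_insert _ _)))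
  omega

/-- a finite union bound -/
theorem ncard_biUnion_le {ι : Type} [DecidableEq ι] (P : Finset ι) (f : ι → Set ℕ) (A : Set ℕ)
    (N R : ℕ) (hA : A ⊆ ⋃ p ∈ P, f p) (hfin : ∀ p ∈ P, (f p).Finite)
    (h : ∀ p ∈ P, (f p).ncard ≤ R) (hP : P.card ≤ N) : A.ncard ≤ N * R := by
  classical
  have hf : (⋃ p ∈ P, f p).Finite := Set.Finite.biUnion P.finite_toSet hfin
  have key : ∀ Q : Finset ι, Q ⊆ P → (⋃ p ∈ Q, f p).ncard ≤ Q.card * R := by
    intro Q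
    induction Q using Finset.induction_on with
    | empty => intro _; simp
    | @insert a Q ha ih =>
      intro hQ
      have h1 : (⋃ p ∈ insert a Q, f p) = f a ∪ ⋃ p ∈ Q, f p := by
        ext x
        simp
      rw [h1, Finset.card_insert_of_notMem ha]
      have h2 := Set.ncard_union_le (f a) (⋃ p ∈ Q, f p)
      have h3 := ih (fun x hx => hQ (Finset.mem_insert_of_mem hx))
      have h4 := h a (hQ (Finset.mem_insert_self _ _))
      calc _ ≤ _ := h2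
        _ ≤ R + Q.card * R := by omega
        _ = (Q.card + 1) * R := by ring
  calc A.ncard ≤ (⋃ p ∈ P, f p).ncard := Set.ncard_le_ncard hA hf
    _ ≤ P.card * R := key P subset_rfl
    _ ≤ N * R := Nat.mul_le_mul_right _ hP

end

theorem bxx (hGRP : T_GRP) (hULB : T_ULB) (hMEN : T_MEN) : T_BXX := by
  intro q hq φ hφ σ
  obtain ⟨R, hR⟩ := pair_bound hULB hMEN hGRP q hq φ hφ σ
  refine ⟨σ * σ * R, ?_⟩
  intro M c hG hRep hgood hcf hc hσ
  classical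
  refine ncard_biUnion_le ((c.Ξ ×ˢ c.Ξ).filter (fun p => p.1 ≠ p.2 ∧ Sum.inr p.1 ∈ c.O 0 ∧
    Sum.inr p.2 ∈ c.O 0)) (fun p => Wxx c p.1 p.2) _ (σ * σ) R ?_ ?_ ?_ ?_
  · rintro i ⟨h1, h2, ξ, hξ, ξ', hξ', hne, h0, h0', x, y, hxy⟩
    simp only [Set.mem_iUnion]
    refine ⟨(ξ, ξ'), ?_, h1, h2, x, y, hxy⟩
    simp only [Finset.mem_filter, Finset.mem_product]
    exact ⟨⟨hξ, hξ'⟩, hne, h0, h0'⟩
  · intro p _
    exact (Set.finite_Iic c.T).subset (fun i hi => by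
      have := hi.2.1
      simp only [Set.mem_Iic]
      omega)
  · intro p hp
    simp only [Finset.mem_filter, Finset.mem_product] at hp
    exact hR M c hG hRep hgood hcf hc hσ p.1 hp.1.1 p.2 hp.1.2 hp.2.1 hp.2.2.1 hp.2.2.2
  · calc _ ≤ (c.Ξ ×ˢ c.Ξ).card := Finset.card_filter_le _ _
      _ = c.Ξ.card * c.Ξ.card := Finset.card_product _ _
      _ ≤ σ * σ := Nat.mul_le_mul (by omega) (by omega)

end Pool.Agent.H47.GW2
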