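import Pool.Agent.H55.GW.Targets3

/-!
# RC: boundedly many rows (module for MP_97b7aa_co)
-/

set_option autoImplicit false

namespace Pool.Agent.H47.GW2

open Pool.Agent.H55.GW
open Frame

section

variable {F : Frame} {L : Set Vx} {S : Finset ℕ}

/-- inside and not in the cut -/
def NS (L : Set Vx) (S : Finset ℕ) : Set Vx := {x | x ∈ L ∧ ∀ s ∈ S, x ≠ Sum.inr s}

/-- the inner edges -/
def edR (L : Set Vx) (S : Finset ℕ) (x y : Vx) : Prop := x ∈ NS L S ∨ y ∈ NS L S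

/-- the inner vertices -/
def Ved (F : Frame) (L : Set Vx) (S : Finset ℕ) : Set ℕ :=
  {v | v ∈ F.V ∧ v ∉ S ∧ ∃ y, F.G (Sum.inr v) y ∧ edR L S (Sum.inr v) y}

theorem edR_symm {x y : Vx} (h : edR L S x y) : edR L S y x := h.symm

theorem star (hcut : ∀ x y, F.G x y → x ∈ L → y ∉ L → ∃ s ∈ S, x = Sum.inr s ∨ y = Sum.inr s)
    {v : ℕ} (hv : v ∈ Ved F L S) {y' : Vx} : edR L S (Sum.inr v) y' := by
  obtain ⟨_, hvS, y, hG, hed⟩ := hv
  by_cases hvL : (Sum.inr v : Vx) ∈ L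
  · left
    refine ⟨hvL, fun s hs h => hvS ?_⟩
    have := Sum.inr.inj h
    rw [this]; exact hs
  · exfalso
    rcases hed with h | h
    · exact hvL h.1
    · obtain ⟨s, hs, h1 | h1⟩ := hcut y (Sum.inr v) (G_symm hG) h.1 hvL
      · exact h.2 s hs h1
      · apply hvS
        have := Sum.inr.inj h1
        rw [this]; exact hs

theorem leafR (hcut : ∀ x y, F.G x y → x ∈ L → y ∉ L → ∃ s ∈ S, x = Sum.inr s ∨ y = Sum.inr s)
    {X : Set ℕ} (hL : ∀ e ∈ F.E, (Sum.inl e : Vx) ∈ L ↔ e ∈ X) {e v : ℕ} (h : F.att e v) :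
    edR L S (Sum.inl e) (Sum.inr v) ↔ e ∈ X := by
  have he : e ∈ F.E := att_E h
  constructor
  · rintro (h1 | h1)
    · exact (hL e he).1 h1.1
    · by_contra hne
      have hnL : (Sum.inl e : Vx) ∉ L := fun hh => hne ((hL e he).1 hh)
      obtain ⟨s, hs, h2 | h2⟩ := hcut (Sum.inr v) (Sum.inl e) h h1.1 hnL
      · exact h1.2 s hs h2
      · exact absurd h2 (by simp)
  · intro h1
    left
    exact ⟨(hL e he).2 h1, fun s _ => by simp⟩

theorem nbr_of_pmat {ed : Vx → Vx → Prop} (hs : ∀ x y, ed x y → ed y x) {J : Set ℕ} {m : ℕ → Vx}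
    (h : PMat F ed J m) {v : ℕ} (hv : v ∈ J) : ∃ y, F.G (Sum.inr v) y ∧ ed (Sum.inr v) y := by
  obtain ⟨_, ⟨e, _, h2, h3⟩ | ⟨u, _, _, _, h4, h5⟩⟩ := h v hv
  · exact ⟨Sum.inl e, h2, hs _ _ h3⟩
  · exact ⟨Sum.inr u, G_symm h4, hs _ _ h5⟩

theorem main (hSPL : T_SPL) (hFPM : T_FPM) {M : Matroid ℕ} (hR : F.Rep M)
    (hcut : ∀ x y, F.G x y → x ∈ L → y ∉ L → ∃ s ∈ S, x = Sum.inr s ∨ y = Sum.inr s)
    {X : Set ℕ} (hX : X ⊆ (F.E : Set ℕ)) (hL : ∀ e ∈ F.E, (Sum.inl e : Vx) ∈ L ↔ e ∈ X)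
    {A U : Set ℕ} (hA : A ⊆ X) (hU : U ⊆ (F.E : Set ℕ) \ X) :
    M.IsBase (A ∪ U) ↔ ∃ K : Finset ℕ, K ⊆ S ∧ Cv F (edR L S) X A (Ved F L S ∪ K) ∧
      Cv F (fun x y => ¬ edR L S x y) ((F.E : Set ℕ) \ X) U
        ((F.V : Set ℕ) \ (Ved F L S ∪ K)) := by
  rw [hR.2 (A ∪ U), ← hFPM F (A ∪ U)]
  have hE : (F.E : Set ℕ) = X ∪ ((F.E : Set ℕ) \ X) := (Set.union_sdiff_cancel hX).symm
  have key := hSPL F (fun _ _ => True) (edR L S) (fun x y => ¬ edR L S x y) X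
    ((F.E : Set ℕ) \ X) A U (F.V : Set ℕ) (fun x y h => edR_symm h)
    (fun x y h h' => h (edR_symm h')) (fun x y => by tauto) (fun x y => by tauto)
    Set.disjoint_sdiff_right
    (fun e v h => ⟨leafR hcut hL h, by
      rw [leafR hcut hL h]
      exact ⟨fun hh => ⟨att_E h, hh⟩, fun hh => hh.2⟩⟩) hA hU
  rw [← hE] at key
  rw [key]
  constructor
  · rintro ⟨J₁, hJ, hc1, hc2⟩
    classical
    obtain ⟨m1, hm1, _⟩ := hc1.2
    obtain ⟨m2, hm2, _⟩ := hc2.2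
    have heq : J₁ = Ved F L S ∪ ((S.filter (fun v => v ∈ J₁) : Finset ℕ) : Set ℕ) := by
      ext v
      simp only [Set.mem_union, Finset.coe_filter, Set.mem_ofPred_eq]
      constructor
      · intro hv
        by_cases hvS : v ∈ S
        · exact Or.inr ⟨hvS, hv⟩
        · left
          exact ⟨hJ hv, hvS, nbr_of_pmat (fun x y h => edR_symm h) hm1 hv⟩
      · rintro (hv | hv)
        · by_contra hn
          obtain ⟨y, hy1, hy2⟩ := nbr_of_pmat (fun x y h h' => h (edR_symm h')) hm2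
            (show v ∈ (F.V : Set ℕ) \ J₁ from ⟨hv.1, hn⟩)
          exact hy2 (star hcut hv)
        · exact hv.2
    refine ⟨S.filter (fun v => v ∈ J₁), Finset.filter_subset _ _, ?_, ?_⟩
    · rw [← heq]; exact hc1
    · rw [← heq]; exact hc2
  · rintro ⟨K, hK, hc1, hc2⟩
    refine ⟨Ved F L S ∪ K, ?_, hc1, hc2⟩
    obtain ⟨m1, hm1, _⟩ := hc1.2
    intro v hv
    exact (hm1 v hv).1

end

theorem rc (hCC : T_CC) (hSPL : T_SPL) (hFPM : T_FPM) : T_RC := by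
  intro q hq φ hφ t
  obtain ⟨n, hn⟩ := hCC q hq φ hφ t
  refine ⟨2 ^ 2 ^ n, ?_⟩
  intro M F hG hR hgood X hX hlam
  obtain ⟨L, S, hS, hL, hcut⟩ := hn M F hG hR hgood X hX hlam
  classical
  have hE : M.E = (F.E : Set ℕ) := hR.1
  have hX' : X ⊆ (F.E : Set ℕ) := hE ▸ hX
  have hL' : ∀ e ∈ F.E, (Sum.inl e : Vx) ∈ L ↔ e ∈ X := fun e he => hL e (by
    rw [hE]; exact he)
  let Φ : Finset (Finset ℕ) → Set (Set ℕ) := fun T =>
    {U | U ⊆ (F.E : Set ℕ) \ X ∧ ∃ K ∈ T, Cv F (fun x y => ¬ edR L S x y) ((F.E : Set ℕ) \ X) U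
        ((F.V : Set ℕ) \ (Ved F L S ∪ K))}
  have hsub : row M X '' {A | A ⊆ X} ⊆ Φ '' ((S.powerset.powerset : Finset (Finset (Finset ℕ))) :
      Set (Finset (Finset ℕ))) := by
    rintro _ ⟨A, hA, rfl⟩
    refine ⟨S.powerset.filter (fun K => Cv F (edR L S) X A (Ved F L S ∪ K)), ?_, ?_⟩
    · rw [Finset.mem_coe, Finset.mem_powerset]
      exact Finset.filter_subset _ _
    · ext U
      simp only [Φ, row, Set.mem_ofPred_eq, hE, Finset.mem_filter, Finset.mem_powerset]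
      constructor
      · rintro ⟨hU, K, ⟨hK, h1⟩, h2⟩
        exact ⟨hU, (main hSPL hFPM hR hcut hX' hL' hA hU).2 ⟨K, hK, h1, h2⟩⟩
      · rintro ⟨hU, hb⟩
        obtain ⟨K, hK, h1, h2⟩ := (main hSPL hFPM hR hcut hX' hL' hA hU).1 hb
        exact ⟨hU, K, ⟨hK, h1⟩, h2⟩
  calc rowc M X = (row M X '' {A | A ⊆ X}).ncard := rfl
    _ ≤ (Φ '' ((S.powerset.powerset : Finset (Finset (Finset ℕ))) :
      Set (Finset (Finset ℕ)))).ncard :=
        Set.ncard_le_ncard hsub ((Finset.finite_toSet _).image _)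
    _ ≤ ((S.powerset.powerset : Finset (Finset (Finset ℕ))) : Set (Finset (Finset ℕ))).ncard :=
        Set.ncard_image_le (Finset.finite_toSet _)
    _ = 2 ^ 2 ^ S.card := by
        rw [Set.ncard_coe_finset, Finset.card_powerset, Finset.card_powerset]
    _ ≤ 2 ^ 2 ^ n := by
        apply Nat.pow_le_pow_right (by norm_num)
        exact Nat.pow_le_pow_right (by norm_num) hS

end Pool.Agent.H47.GW2
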